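import Mathlib

open Filter Topology Set Complex

namespace Pool.Agent.Results.MP_f4f8d7_an.Glide

/-- The Euclidean plane. -/
abbrev Plane : Type := EuclideanSpace ℝ (Fin 2)

/-- The graph of `f` in the Euclidean plane. -/
def graph (f : ℝ → ℝ) : Set Plane := {p | p 1 = f (p 0)}

/-- `g` carries the graph of `c f` onto the graph of `f`. -/
def Carries (g : Plane ≃ᵢ Plane) (c : ℝ) (f : ℝ → ℝ) : Prop :=
  g '' graph (fun x => c * f x) = graph f

/-- Vertical rigidity. -/
def VertRigid (f : ℝ → ℝ) : Prop := ∀ c : ℝ, 0 < c → ∃ g : Plane ≃ᵢ Plane, Carries g c f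

/-- The odd integers `B k`. -/
def B : ℕ → ℤ
  | 0 => 1
  | k + 1 => 9 ^ (k + 1) * B k

theorem B_pos (k : ℕ) : 0 < B k := by
  induction k with
  | zero => simp [B]
  | succ k ih => rw [B]; positivity

theorem B_odd (k : ℕ) : Odd (B k) := by
  induction k with
  | zero => simp [B]
  | succ k ih => rw [B]; exact (Odd.pow (by decide)).mul ih

/-- The characters. -/
noncomputable def e (k : ℕ) (x : ℝ) : ℂ := exp (2 * Real.pi * I * ((B k : ℝ) * x : ℝ))

/-- The rescaled characters. -/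
noncomputable def ψ (k : ℕ) (x : ℝ) : ℂ := (3 : ℂ) ^ (k + 1) * (e k x - 1)

theorem e_add (k : ℕ) (x y : ℝ) : e k (x + y) = e k x * e k y := by
  rw [e, e, e, ← exp_add]
  congr 1
  push_cast
  ring

theorem ψ_add (k : ℕ) (x y : ℝ) : ψ k (x + y) = ψ k x * e k y + ψ k y := by
  rw [ψ, ψ, ψ, e_add]; ring

theorem inv3 : Tendsto (fun k : ℕ => ((3 : ℂ) ^ (k + 1))⁻¹) atTop (𝓝 0) := by
  have : Tendsto (fun k : ℕ => ((3 : ℂ)⁻¹) ^ (k + 1)) atTop (𝓝 0) :=
    (tendsto_pow_atTop_nhds_zero_of_norm_lt_one (by norm_num)).comp (tendsto_add_atTop_nat 1)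
  simpa using this

theorem e_lim {x : ℝ} {z : ℂ} (h : Tendsto (fun k => ψ k x) atTop (𝓝 z)) :
    Tendsto (fun k => e k x) atTop (𝓝 1) := by
  have := (inv3.mul h).add_const 1
  rw [zero_mul, zero_add] at this
  refine this.congr fun k => ?_
  rw [ψ]
  field_simp
  ring

theorem lim_add {x y : ℝ} {z w : ℂ} (h : Tendsto (fun k => ψ k x) atTop (𝓝 z))
    (h' : Tendsto (fun k => ψ k y) atTop (𝓝 w)) :
    Tendsto (fun k => ψ k (x + y)) atTop (𝓝 (z + w)) := by
  have := (h.mul (e_lim h')).add h'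
  rw [mul_one] at this
  exact this.congr fun k => (ψ_add k x y).symm

theorem lim_neg {x : ℝ} {z : ℂ} (h : Tendsto (fun k => ψ k x) atTop (𝓝 z)) :
    Tendsto (fun k => ψ k (-x)) atTop (𝓝 (-z)) := by
  have h1 := (h.mul ((e_lim h).inv₀ one_ne_zero)).neg
  rw [inv_one, mul_one] at h1
  refine h1.congr fun k => ?_
  have h2 := e_add k x (-x)
  have h3 : e k 0 = 1 := by simp [e]
  have h4 : e k x ≠ 0 := exp_ne_zero _
  rw [add_neg_cancel, h3] at h2
  rw [ψ, ψ, eq_inv_of_mul_eq_one_right h2.symm]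
  field_simp
  ring

theorem lim_int (n : ℤ) : Tendsto (fun k => ψ k n) atTop (𝓝 0) := by
  refine tendsto_const_nhds.congr fun k => ?_
  have : e k n = 1 := by
    rw [e, ← exp_int_mul_two_pi_mul_I (B k * n)]
    congr 1
    push_cast
    ring
  rw [ψ, this]; simp

theorem half (z : ℂ) : ¬ Tendsto (fun k => ψ k (1 / 2)) atTop (𝓝 z) := fun h => by
  have h1 : ∀ k, e k (1 / 2) = -1 := fun k => by
    obtain ⟨m, hm⟩ := B_odd k
    have : e k (1 / 2) = exp (m * (2 * Real.pi * I)) * exp (Real.pi * I) := by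
      rw [e, hm, ← exp_add]
      congr 1
      push_cast
      ring
    rw [this, exp_int_mul_two_pi_mul_I, exp_pi_mul_I, one_mul]
  have h2 := e_lim h
  simp only [h1] at h2
  have := tendsto_nhds_unique h2 tendsto_const_nhds
  norm_num at this

theorem onto (r : ℝ) : ∃ t : ℝ, Tendsto (fun k => ψ k t) atTop (𝓝 (2 * Real.pi * I * r)) := by
  let m : ℕ → ℤ := fun k => ⌊r * 3 ^ (k + 1)⌋
  obtain ⟨N, hN⟩ : ∃ N : ℕ → ℤ, ∀ k, N (k + 1) = 9 ^ (k + 1) * N k + m k :=
    ⟨fun k => Nat.rec 0 (fun k n => 9 ^ (k + 1) * n + m k) k, fun k => rfl⟩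
  set C := |r| + 1 with hC
  have hC1 : 1 ≤ C := by linarith [abs_nonneg r]
  have hm : ∀ k, |(m k : ℝ) - r * 3 ^ (k + 1)| ≤ 1 := fun k =>
    abs_le.2 ⟨by linarith [Int.lt_floor_add_one (r * 3 ^ (k + 1))],
      by linarith [Int.floor_le (r * 3 ^ (k + 1))]⟩
  have hrec : ∀ (k : ℕ) (t : ℝ), (9 : ℝ) ^ (k + 1) * ((B k : ℝ) * t - Int.cast (N k)) =
      (m k : ℝ) + (B (k + 1) * t - N (k + 1)) := fun k t => by
    rw [hN, B]; push_cast; ring
  have h9 : ∀ k : ℕ, (9 : ℝ) ^ (k + 1) = 3 ^ (k + 1) * 3 ^ (k + 1) := fun k => by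
    rw [← mul_pow]; norm_num
  have h3 : ∀ k : ℕ, (3 : ℝ) ≤ 3 ^ (k + 1) := fun k => by
    rw [pow_succ]; nlinarith [one_le_pow₀ (show (1 : ℝ) ≤ 3 by norm_num) (n := k)]
  let A : ℕ → Set ℝ := fun k => Icc ((N k - C) / B k) ((N k + C) / B k)
  have hA : ∀ k t, t ∈ A k ↔ |B k * t - N k| ≤ C := fun k t => by
    have hb : (0 : ℝ) < B k := by exact_mod_cast B_pos k
    rw [mem_Icc, div_le_iff₀ hb, le_div_iff₀ hb, abs_le]
    constructor <;> rintro ⟨h, h'⟩ <;> constructor <;> linarith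
  obtain ⟨t, ht⟩ := IsCompact.nonempty_iInter_of_sequence_nonempty_isCompact_isClosed A
    (fun k t h => by
      rw [hA] at h ⊢
      have h1 := hrec k t
      have h2 : |(9 : ℝ) ^ (k + 1) * (B k * t - N k)| ≤ |r| * 3 ^ (k + 1) + 1 + C := by
        rw [h1]
        have h4 := abs_add_le (m k : ℝ) (B (k + 1) * t - N (k + 1))
        have h5 := abs_add_le ((m k : ℝ) - r * 3 ^ (k + 1)) (r * 3 ^ (k + 1))
        rw [sub_add_cancel, abs_mul, abs_of_pos (show (0 : ℝ) < 3 ^ (k + 1) by positivity)] at h5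
        linarith [hm k]
      rw [abs_mul, abs_of_pos (show (0 : ℝ) < 9 ^ (k + 1) by positivity), h9] at h2
      have h6 := h3 k
      by_contra hc
      push Not at hc
      have h7 : 3 ^ (k + 1) * 3 ^ (k + 1) * C < 3 ^ (k + 1) * 3 ^ (k + 1) * |B k * t - N k| :=
        mul_lt_mul_of_pos_left hc (by positivity)
      have h8 : 3 * 3 ^ (k + 1) * C ≤ 3 ^ (k + 1) * 3 ^ (k + 1) * C := by gcongr
      have h10 : 3 * C ≤ 3 ^ (k + 1) * C := by gcongr
      nlinarith [abs_nonneg r])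
    (fun k => nonempty_Icc.2 (by
      have hb : (0 : ℝ) < B k := by exact_mod_cast B_pos k
      gcongr; linarith)) isCompact_Icc (fun k => isClosed_Icc)
  have hθ : ∀ k, |B k * t - N k| ≤ C := fun k => (hA k t).1 (mem_iInter.1 ht k)
  have i3 : Tendsto (fun k : ℕ => ((3 : ℝ) ^ (k + 1))⁻¹) atTop (𝓝 0) := by
    have : Tendsto (fun k : ℕ => ((3 : ℝ)⁻¹) ^ (k + 1)) atTop (𝓝 0) :=
      (tendsto_pow_atTop_nhds_zero_of_lt_one (by norm_num) (by norm_num)).comp
        (tendsto_add_atTop_nat 1)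
    simpa using this
  have hl : Tendsto (fun k : ℕ => (3 : ℝ) ^ (k + 1) * (B k * t - N k)) atTop (𝓝 r) := by
    rw [tendsto_iff_norm_sub_tendsto_zero]
    refine squeeze_zero (fun k => norm_nonneg _) (fun k => ?_)
      (by simpa using i3.mul_const (1 + C))
    have hp : (0 : ℝ) < 3 ^ (k + 1) := by positivity
    have h1 : (3 : ℝ) ^ (k + 1) * (B k * t - N k) - r = ((3 : ℝ) ^ (k + 1))⁻¹ *
        ((m k - r * 3 ^ (k + 1)) + (B (k + 1) * t - N (k + 1))) := by
      have := hrec k t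
      rw [h9] at this
      field_simp
      linarith
    rw [h1, Real.norm_eq_abs, abs_mul, abs_of_pos (inv_pos.2 hp)]
    gcongr
    linarith [abs_add_le (m k - r * 3 ^ (k + 1)) (B (k + 1) * t - N (k + 1)), hm k, hθ (k + 1)]
  let z : ℕ → ℂ := fun k => 2 * Real.pi * I * ((B k * t - N k : ℝ) : ℂ)
  have hz : Tendsto (fun k : ℕ => (3 : ℂ) ^ (k + 1) * z k) atTop (𝓝 (2 * Real.pi * I * r)) := by
    refine (((continuous_ofReal.tendsto r).comp hl).const_mul (2 * Real.pi * I)).congr fun k => ?_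
    simp only [z, Function.comp]
    push_cast
    ring
  have hz0 : Tendsto z atTop (𝓝 0) := by
    have := inv3.mul hz
    rw [zero_mul] at this
    refine this.congr fun k => ?_
    field_simp
  refine ⟨t, ?_⟩
  have hr : Tendsto (fun k : ℕ => (3 : ℂ) ^ (k + 1) * (exp (z k) - 1 - z k)) atTop (𝓝 0) := by
    have h1 := hz.norm.mul hz0.norm
    rw [norm_zero, mul_zero] at h1
    refine squeeze_zero_norm' ?_ h1
    have h2 := hz0.norm.eventually (ge_mem_nhds (show ‖(0 : ℂ)‖ < 1 by simp))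
    filter_upwards [h2] with k hk
    rw [norm_mul, norm_mul, mul_assoc, ← sq]
    gcongr
    exact norm_exp_sub_one_sub_id_le hk
  have := hz.add hr
  rw [add_zero] at this
  refine this.congr fun k => ?_
  have h1 : e k t = exp (z k) := by
    rw [e, ← mul_one (exp (z k)), ← exp_int_mul_two_pi_mul_I (N k), ← exp_add]
    congr 1
    simp only [z]
    push_cast
    ring
  rw [ψ, h1]; ring

/-- The subgroup where the rescaled characters converge. -/
def H : Set ℝ := {x | ∃ z, Tendsto (fun k => ψ k x) atTop (𝓝 z)}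

/-- The exponential of the limit functional, extended by zero. -/
noncomputable def F (x : ℝ) : ℝ :=
  H.indicator (fun x => Real.exp (limUnder atTop fun k => ψ k x).im) x

theorem F_meas : Measurable F := by
  have hc : ∀ k, Continuous (ψ k) := fun k => by unfold ψ e; fun_prop
  refine Measurable.indicator ?_ (MeasureTheory.StronglyMeasurable.measurableSet_exists_tendsto
    fun k => (hc k).stronglyMeasurable)
  exact Real.measurable_exp.comp (measurable_im.comp
    (MeasureTheory.StronglyMeasurable.limUnder fun k => (hc k).stronglyMeasurable).measurable)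

theorem F_add {t : ℝ} {w : ℂ} (h : Tendsto (fun k => ψ k t) atTop (𝓝 w)) (x : ℝ) :
    F (x + t) = Real.exp w.im * F x := by
  by_cases hx : ∃ z, Tendsto (fun k => ψ k x) atTop (𝓝 z)
  · obtain ⟨z, hz⟩ := hx
    rw [F, F, indicator_of_mem (show x + t ∈ H from ⟨_, lim_add hz h⟩),
      indicator_of_mem (show x ∈ H from ⟨_, hz⟩), (lim_add hz h).limUnder_eq,
      hz.limUnder_eq, add_im, Real.exp_add, mul_comm]
  · rw [F, F, indicator_of_notMem (show x ∉ H from hx), indicator_of_notMem, mul_zero]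
    rintro ⟨z, hz⟩
    have := lim_add hz (lim_neg h)
    rw [add_neg_cancel_right] at this
    exact hx ⟨_, this⟩

/-- The maps `(x, y) ↦ (x + τ, σ y)`. -/
noncomputable def iso (τ σ : ℝ) (hσ : σ * σ = 1) : Plane ≃ᵢ Plane where
  toFun p := !₂[p 0 + τ, σ * p 1]
  invFun p := !₂[p 0 - τ, σ * p 1]
  left_inv p := by
    ext i; fin_cases i <;> simp [← mul_assoc, hσ]
  right_inv p := by
    ext i; fin_cases i <;> simp [← mul_assoc, hσ]
  isometry_toFun := Isometry.of_dist_eq fun p q => by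
    rw [EuclideanSpace.dist_eq, EuclideanSpace.dist_eq, Fin.sum_univ_two, Fin.sum_univ_two]
    congr 1
    simp only [Real.dist_eq, sq_abs, Equiv.coe_fn_mk]
    simp
    linear_combination (p 1 - q 1) ^ 2 * hσ

theorem carries {f : ℝ → ℝ} {τ σ c : ℝ} (hσ : σ * σ = 1) (h : ∀ x, f (x + τ) = σ * (c * f x)) :
    Carries (iso τ σ hσ) c f := by
  ext p
  constructor
  · rintro ⟨q, hq, rfl⟩
    change σ * q 1 = f (q 0 + τ)
    rw [h, show q 1 = c * f (q 0) from hq]
  · intro hp
    refine ⟨(iso τ σ hσ).symm p, ?_, (iso τ σ hσ).apply_symm_apply p⟩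
    change σ * p 1 = c * f (p 0 - τ)
    have := h (p 0 - τ)
    rw [sub_add_cancel] at this
    rw [show p 1 = f (p 0) from hp, this, ← mul_assoc, hσ, one_mul]

theorem result : ∃ f : ℝ → ℝ, Measurable f ∧ VertRigid f ∧ (¬ ∃ a b : ℝ, ∀ x, f x = a + b * x) ∧
    ∀ c : ℝ, 0 < c → ∃ g : Plane ≃ᵢ Plane, Carries g c f ∧ (¬ ∃ v : Plane, ∀ p, g p = p + v) ∧
      ∀ p, g p ≠ p := by
  have h1 : ∀ x, F (x + 1) = F x := fun x => by
    have := F_add (lim_int 1) x
    simpa using this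
  have key : ∀ c : ℝ, 0 < c → ∃ g : Plane ≃ᵢ Plane, Carries g c (fun x => F x - F (x + 1 / 2)) ∧
      (¬ ∃ v : Plane, ∀ p, g p = p + v) ∧ ∀ p, g p ≠ p := fun c hc => by
    obtain ⟨t, ht⟩ := onto (Real.log c / (2 * Real.pi))
    have h2 : ∀ x, F (x + t) = c * F x := fun x => by
      rw [F_add ht]
      congr 1
      have : (2 * Real.pi * I * (Real.log c / (2 * Real.pi) : ℝ) : ℂ) = (Real.log c : ℝ) * I := by
        have : (Real.pi : ℂ) ≠ 0 := by exact_mod_cast Real.pi_ne_zero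
        push_cast
        field_simp
      rw [this, mul_I_im, ofReal_re, Real.exp_log hc]
    refine ⟨iso (t + 1 / 2) (-1) (by norm_num), carries _ fun x => ?_, ?_, fun p hp => ?_⟩
    · rw [show x + (t + 1 / 2) = x + 1 / 2 + t by ring,
        show x + 1 / 2 + t + 1 / 2 = x + t + 1 by ring, h1, h2, h2]
      ring
    · rintro ⟨v, hv⟩
      have h3 := congrArg (fun p : Plane => p 1) (hv 0)
      have h4 := congrArg (fun p : Plane => p 1) (hv !₂[0, 1])
      change -1 * 0 = 0 + v 1 at h3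
      change -1 * 1 = 1 + v 1 at h4
      linarith
    · have h3 := congrArg (fun p : Plane => p 0) hp
      change p 0 + (t + 1 / 2) = p 0 at h3
      have h4 := lim_neg ht
      rw [show -t = 1 / 2 by linarith] at h4
      exact half _ h4
  refine ⟨fun x => F x - F (x + 1 / 2), F_meas.sub (F_meas.comp (measurable_id.add_const _)),
    fun c hc => (key c hc).imp fun g h => h.1, ?_, key⟩
  rintro ⟨a, b, h⟩
  have h0 : F 0 = 1 := by
    have := lim_int 0
    rw [Int.cast_zero] at this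
    rw [F, indicator_of_mem (show (0 : ℝ) ∈ H from ⟨_, this⟩), this.limUnder_eq]
    simp
  have h2 : F (1 / 2) = 0 := indicator_of_notMem (show (1 / 2 : ℝ) ∉ H from fun ⟨z, hz⟩ => half z hz) _
  have h3 := h 0
  have h4 := h (1 / 2)
  have h5 := h 1
  have h6 := h1 0
  have h7 := h1 (1 / 2)
  norm_num at h3 h4 h5 h6 h7 h2
  linarith

end Pool.Agent.Results.MP_f4f8d7_an.Glide
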